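import Pool.Agent.MP_7332c2_co.Lower
import Pool.Agent.MP_7332c2_co.Ladder

open Pool.Agent.MP_7332c2_co

namespace Pool.Agent.Results.MP_7332c2_co.PendantDichotomyFails

theorem four_mul_le (a : ℕ) : 4 * a + 1 ≤ 5 ^ a := by
  induction a with
  | zero => simp
  | succ a ih => rw [pow_succ]; omega

theorem two_mul_le (a : ℕ) (ha : 4 ≤ a) : 2 * a + 211 ≤ 5 ^ a := by
  induction a, ha using Nat.le_induction with
  | base => norm_num
  | succ a _ ih => rw [pow_succ]; omega

/-- The answer to the question is negative: it is not true that for every finite connected graph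
`H` and every vertex `u` of `H`, either `M_{H^{u+}}(n) = O(1)` or `M_{H^{u+}}(n)` and `M_H(n)` are
within positive constant factors of each other for all sufficiently large `n`. -/
theorem result :
    ¬ ∀ (W : Type) [Fintype W] (H : SimpleGraph W) (u : W), H.Connected →
      (∃ B : ℕ, ∀ n : ℕ, maxRunningTime (addPendant H u) n ≤ B) ∨
      (∃ c C : ℝ, 0 < c ∧ c ≤ C ∧ ∃ N : ℕ, ∀ n : ℕ, N ≤ n →
        c * (maxRunningTime H n : ℝ) ≤ (maxRunningTime (addPendant H u) n : ℝ) ∧
        (maxRunningTime (addPendant H u) n : ℝ) ≤ C * (maxRunningTime H n : ℝ)) := by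
  intro hall
  rcases hall (Option (Fin 6)) wheel none wheel_connected with ⟨B, hB⟩ | ⟨c, C, hc, -, N, hN⟩
  · have h1 := hB (4 * 5 ^ B + 8)
    have h2 := lt_maxRunningTime_pwheel (n := 4 * 5 ^ B + 8) (t := B) le_rfl
    exact absurd h1 (not_le.2 h2)
  · obtain ⟨K, hK⟩ := exists_nat_ge (1 / c)
    have hcK : 1 ≤ c * K := by
      rw [div_le_iff₀ hc] at hK
      linarith
    -- the exponent
    obtain ⟨a, ha⟩ : ∃ a, a = 5 * K + 7 + N := ⟨_, rfl⟩
    have h1 := four_mul_le a
    have h2 := two_mul_le a (by omega)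
    have h3 : (20 * K + 28) * (2 * a + 211) ≤ 5 ^ a * 5 ^ a := Nat.mul_le_mul (by omega) h2
    have h4 : 5 ^ a * 5 ^ a = 5 ^ (2 * a) := by rw [← pow_add]; congr 1; omega
    rw [h4] at h3
    have h5 : 2 * a < 5 ^ (2 * a) := Nat.lt_pow_self (by norm_num)
    -- the upper bound for the pendant graph
    have hup : maxRunningTime (addPendant wheel none) (5 ^ (2 * a)) ≤ 2 * a + 210 := by
      apply maxRunningTime_le
      intro G
      apply pwheel_runningTime_le
      · rw [Fintype.card_fin]; nlinarith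
      · rw [Fintype.card_fin]
    -- the lower bound for the wheel
    have hlow : K * (2 * a + 211) < maxRunningTime wheel (5 ^ (2 * a)) := by
      apply lt_maxRunningTime_wheel
      nlinarith
    have hfin := (hN (5 ^ (2 * a)) (by omega)).1
    have hup' : (maxRunningTime (addPendant wheel none) (5 ^ (2 * a)) : ℝ) ≤ 2 * a + 210 := by
      exact_mod_cast hup
    have hlow' : (K : ℝ) * (2 * a + 211) ≤ maxRunningTime wheel (5 ^ (2 * a)) := by
      exact_mod_cast hlow.le
    have ha0 : (0 : ℝ) ≤ a := Nat.cast_nonneg a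
    have h6 : c * ((K : ℝ) * (2 * a + 211)) ≤ 2 * a + 210 :=
      (mul_le_mul_of_nonneg_left hlow' hc.le).trans (hfin.trans hup')
    have h7 : (1 : ℝ) * (2 * a + 211) ≤ c * K * (2 * a + 211) :=
      mul_le_mul_of_nonneg_right hcK (by linarith)
    nlinarith

end Pool.Agent.Results.MP_7332c2_co.PendantDichotomyFails
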